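import Mathlib

set_option autoImplicit false

namespace Pool.Agent.Results.MP_7bafff_nt.Lucas17

/-- `u` is the Ulam sequence, indexed from `0`: `u 0 = 1`, `u 1 = 2`, and for `n ≥ 2` the term
`u n` is the least integer above `u (n - 1)` that is `u i + u j` for exactly one pair
`i < j < n`. -/
def IsUlam (u : ℕ → ℕ) : Prop :=
  u 0 = 1 ∧ u 1 = 2 ∧ ∀ n : ℕ, 2 ≤ n →
    IsLeast {m : ℕ | u (n - 1) < m ∧
      ∃! p : ℕ × ℕ, p.1 < p.2 ∧ p.2 < n ∧ u p.1 + u p.2 = m} (u n)

/-- The Lucas numbers. -/
def lucas : ℕ → ℕ
  | 0 => 2
  | 1 => 1
  | n + 2 => lucas (n + 1) + lucas n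

def nextSet (u : ℕ → ℕ) (n : ℕ) : Set ℕ :=
  {m : ℕ | u (n - 1) < m ∧ ∃! p : ℕ × ℕ, p.1 < p.2 ∧ p.2 < n ∧ u p.1 + u p.2 = m}

lemma nextSet_congr (u v : ℕ → ℕ) (n : ℕ) (hn : 1 ≤ n) (h : ∀ i < n, u i = v i) :
    nextSet u n = nextSet v n := by
  ext m
  simp only [nextSet, Set.mem_ofPred_eq]
  rw [h (n - 1) (by omega)]
  refine and_congr Iff.rfl (existsUnique_congr fun p => ?_)
  refine and_congr_right fun h1 => and_congr_right fun h2 => ?_
  rw [h p.1 (by omega), h p.2 h2]

noncomputable def approx : ℕ → ℕ → ℕ
  | 0 => fun i => if i = 0 then 1 else 2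
  | k + 1 => Function.update (approx k) (k + 2) (sInf (nextSet (approx k) (k + 2)))

lemma approx_stable (i k : ℕ) (h : i ≤ k + 1) (l : ℕ) : approx (k + l) i = approx k i := by
  induction l with
  | zero => rfl
  | succ l ih =>
    rw [← add_assoc, approx, Function.update_of_ne (by omega), ih]

noncomputable def ul (i : ℕ) : ℕ := approx i i

lemma ul_eq (i k : ℕ) (h : i ≤ k + 1) : approx k i = ul i := by
  unfold ul
  rcases le_total i k with h1 | h1
  · obtain ⟨l, rfl⟩ := Nat.exists_eq_add_of_le h1
    exact approx_stable i i (by omega) l
  · obtain ⟨l, rfl⟩ := Nat.exists_eq_add_of_le h1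
    exact (approx_stable _ k h l).symm

lemma ul_succ (k : ℕ) : ul (k + 2) = sInf (nextSet ul (k + 2)) := by
  rw [← ul_eq (k + 2) (k + 1) le_rfl, approx, Function.update_self]
  rw [nextSet_congr (approx k) ul (k + 2) (by omega) (fun i hi => ul_eq i k (by omega))]

lemma ul_zero : ul 0 = 1 := by simp [ul, approx]

lemma ul_one : ul 1 = 2 := by
  rw [← ul_eq 1 0 le_rfl]; simp [approx]

lemma ul_step (k : ℕ) : (∀ i j, i < j → j ≤ k + 1 → ul i < ul j) := by
  induction k with
  | zero =>
    intro i j hij hj
    have : i = 0 := by omega
    have : j = 1 := by omega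
    subst_vars
    rw [ul_zero, ul_one]; norm_num
  | succ k ih =>
    have hpos : ∀ i ≤ k + 1, 1 ≤ ul i := by
      intro i hi
      rcases Nat.eq_zero_or_pos i with rfl | h0
      · rw [ul_zero]
      · have := ih 0 i h0 hi
        omega
    have hne : (nextSet ul (k + 2)).Nonempty := by
      refine ⟨ul k + ul (k + 1), ?_, (k, k + 1), ⟨by simp, by simp, rfl⟩, ?_⟩
      · have := hpos k (by omega)
        show ul (k + 2 - 1) < _
        simp only [show k + 2 - 1 = k + 1 by omega]
        omega
      · rintro ⟨i, j⟩ ⟨h1, h2, h3⟩
        simp only at h1 h2 h3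
        have a1 : ul i ≤ ul k := by
          rcases Nat.lt_or_ge i k with h | h
          · exact (ih i k h (by omega)).le
          · have : i = k := by omega
            rw [this]
        by_cases hj : j = k + 1
        · subst hj
          have : i = k := by
            by_contra hne
            have := ih i k (by omega) (by omega)
            omega
          rw [this]
        · have := ih j (k + 1) (by omega) le_rfl
          omega
    have hlt : ul (k + 1) < ul (k + 2) := by
      rw [ul_succ]
      exact (Nat.sInf_mem hne).1
    intro i j hij hj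
    by_cases hj' : j = k + 2
    · subst hj'
      rcases Nat.lt_or_ge i (k + 1) with h | h
      · exact (ih i (k + 1) h le_rfl).trans hlt
      · have : i = k + 1 := by omega
        rw [this]; exact hlt
    · exact ih i j hij (by omega)

lemma ul_isUlam : IsUlam ul := by
  refine ⟨ul_zero, ul_one, fun n hn => ?_⟩
  obtain ⟨k, rfl⟩ : ∃ k, n = k + 2 := ⟨n - 2, by omega⟩
  have hne : (nextSet ul (k + 2)).Nonempty := by
    by_contra hc
    have h0 : ul (k + 2) = 0 := by
      rw [ul_succ, Set.not_nonempty_iff_eq_empty.mp hc, Nat.sInf_empty]
    have := ul_step (k + 1) 0 (k + 2) (by omega) le_rfl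
    omega
  have h1 := Nat.sInf_mem hne
  rw [← ul_succ] at h1
  refine ⟨h1, fun m hm => ?_⟩
  rw [ul_succ]
  exact Nat.sInf_le hm

lemma mono {u : ℕ → ℕ} (h : IsUlam u) : StrictMono u := by
  refine strictMono_nat_of_lt_succ fun n => ?_
  rcases Nat.eq_zero_or_pos n with rfl | h0
  · rw [h.1, h.2.1]; norm_num
  · have := (h.2.2 (n + 1) (by omega)).1.1
    simpa using this

lemma char {u : ℕ → ℕ} (h : IsUlam u) (m : ℕ) (hm : 3 ≤ m) :
    m ∈ Set.range u ↔ ∃! a : ℕ, a ∈ Set.range u ∧ m - a ∈ Set.range u ∧ 2 * a < m := by
  have hs := mono h
  have hex : ∃ n, m ≤ u n := ⟨m, hs.le_apply⟩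
  classical
  set n := Nat.find hex with hn
  have h1 : m ≤ u n := Nat.find_spec hex
  have h2 : ∀ k < n, u k < m := fun k hk => by
    have := Nat.find_min hex hk
    omega
  have hn2 : 2 ≤ n := by
    by_contra hc
    have : u n ≤ u 1 := hs.monotone (by omega)
    rw [h.2.1] at this
    omega
  have hpos : ∀ i, 1 ≤ u i := fun i => by
    have := hs.monotone (Nat.zero_le i)
    rw [h.1] at this
    exact this
  have key : (∃! p : ℕ × ℕ, p.1 < p.2 ∧ p.2 < n ∧ u p.1 + u p.2 = m) ↔
      ∃! a : ℕ, a ∈ Set.range u ∧ m - a ∈ Set.range u ∧ 2 * a < m := by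
    constructor
    · rintro ⟨⟨i, j⟩, ⟨a1, a2, a3⟩, hu⟩
      simp only at a1 a2 a3
      have := hs a1
      refine ⟨u i, ⟨⟨i, rfl⟩, ⟨j, by omega⟩, by omega⟩, ?_⟩
      rintro a ⟨⟨i', rfl⟩, ⟨j', hj'⟩, b3⟩
      have c1 : i' < j' := hs.lt_iff_lt.mp (by omega)
      have c2 : j' < n := by
        have := hpos i'
        exact hs.lt_iff_lt.mp (by omega)
      have := hu (i', j') ⟨c1, c2, by simp only; omega⟩
      have e : i' = i := (Prod.ext_iff.mp this).1
      rw [e]
    · rintro ⟨a, ⟨⟨i, rfl⟩, ⟨j, hj⟩, b3⟩, hu⟩
      have c1 : i < j := hs.lt_iff_lt.mp (by omega)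
      have c2 : j < n := by
        have := hpos i
        exact hs.lt_iff_lt.mp (by omega)
      refine ⟨(i, j), ⟨c1, c2, by simp only; omega⟩, ?_⟩
      rintro ⟨i', j'⟩ ⟨a1, a2, a3⟩
      simp only at a1 a2 a3
      have := hs a1
      have e1 := hu (u i') ⟨⟨i', rfl⟩, ⟨j', by omega⟩, by omega⟩
      have e2 : u j' = u j := by omega
      rw [hs.injective e1, hs.injective e2]
  rw [← key]
  have hl := h.2.2 n hn2
  constructor
  · rintro ⟨k, rfl⟩
    have : k = n := by
      rcases lt_trichotomy k n with c | c | c
      · have := h2 k c; omega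
      · exact c
      · have := hs c; omega
    rw [this]
    exact hl.1.2
  · intro hp
    have := hl.2 ⟨h2 (n - 1) (by omega), hp⟩
    exact ⟨n, by omega⟩

def mask : ℕ := 2904615100826910162214284305106327128500051073091633952295731325071972364517874682713121852985210552207473151425261959833590490338604084639983097584527949257826545409389650004351852767609241076929873119124186322313154438923011036323378381493999480584044012071604901539680379018807198430379303796317324035292901413806895971572141998944576395401541890889804899152111192126131499698551408540602118547941492316297849156084610660501608027383272348785061275229005236534184631123312093192645799083615919677781042118701835011176127853348719424460221586930807186475600074671346890993868305481905907433789195023249017366268727689936105017267687674443000114556690027172810060380851903628633580366406908455915155538171577630150900935721377988180072221074798879198035516878867810372702004150301142871300687202919253429103125770606692485096577779678403491831325915643545823291563913063649332894167343546637782593905860295243982831699752316029493595727283915062751917812467931618229017032594529082918987126105161331882823687523102416054372087678579386953533641758837614102469316782430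

def rev : ℕ := 9105969234066691905690167652487090689397378820589106162515429391474673367663267332030584068175372877164416524749564250679099118544612287865989625556339254368984538596652753289375324803549636976994804333581617874517982955436443263536270856237581513741531478432817092667589493631672553843734243121657929252963517412999094431037338019040325579470223555279512318161710633839663864965599246133913001867746085331089389252713062867276284971462160335082357538294529031536027780445402608159340782429794183296547180496472470954889872186165914666062253983331584788496175983516519988988617014348074934228016102842343271487348023147334228229045962094695503838740112208895884613592402829660167982033486297434157050839390704900761085429641525388567858646175569070858952134884217292383635007877565806480137646301768474799232679367482484830327867404875052143141232096232965894424942983600187593321773130498981207773286665883385212012133623675204408726773201379977209330368340401098734178903414167181948836928902119994433404464133219329322109632423222387872034409345395844721788682281779462144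

def xx (m : ℕ) : ℕ := (mask &&& (rev >>> (3571 - m))) % 2 ^ ((m + 1) / 2)

lemma check : (List.range 3572).all
    (fun m => decide (m < 3) || (mask.testBit m == (xx m == 2 ^ (xx m).log2))) = true := by
  decide +kernel

lemma check1 : (List.range 3572).all
    (fun a => rev.testBit (3571 - a) == mask.testBit a) = true := by
  decide +kernel

lemma check2 : xx 3571 = 0 := by decide +kernel

lemma check3 : mask.testBit 0 = false ∧ mask.testBit 1 = true ∧ mask.testBit 2 = true := by
  decide +kernel

lemma one_bit (x : ℕ) : x = 2 ^ x.log2 ↔ ∃! a, x.testBit a = true := by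
  constructor
  · intro h
    refine ⟨x.log2, ?_, fun a ha => ?_⟩
    · show x.testBit x.log2 = true
      conv_lhs => rw [h]
      rw [Nat.log2_two_pow]
      simp
    · rw [h, Nat.testBit_two_pow] at ha
      simpa [eq_comm] using ha
  · rintro ⟨a, ha, hu⟩
    have : x = 2 ^ a := by
      apply Nat.eq_of_testBit_eq
      intro i
      rw [Nat.testBit_two_pow]
      by_cases h : a = i
      · subst h; simpa using ha
      · simp only [h, decide_false]
        by_contra hc
        exact h (hu i (by simpa using hc)).symm
    rw [this, Nat.log2_two_pow]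

lemma xx_bit (m a : ℕ) (hm : m ≤ 3571) : (xx m).testBit a = true ↔
    2 * a < m ∧ mask.testBit a = true ∧ mask.testBit (m - a) = true := by
  unfold xx
  rw [Nat.testBit_mod_two_pow, Nat.testBit_and, Nat.testBit_shiftRight]
  simp only [Bool.and_eq_true, decide_eq_true_eq]
  constructor
  · rintro ⟨b1, b2, b3⟩
    have hc := List.all_eq_true.mp check1 (m - a) (List.mem_range.mpr (by omega))
    rw [beq_iff_eq, show 3571 - (m - a) = 3571 - m + a by omega] at hc
    exact ⟨by omega, b2, hc ▸ b3⟩
  · rintro ⟨b1, b2, b3⟩
    have hc := List.all_eq_true.mp check1 (m - a) (List.mem_range.mpr (by omega))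
    rw [beq_iff_eq, show 3571 - (m - a) = 3571 - m + a by omega] at hc
    exact ⟨by omega, b2, hc ▸ b3⟩

lemma main {u : ℕ → ℕ} (h : IsUlam u) (m : ℕ) :
    m ≤ 3571 → (m ∈ Set.range u ↔ mask.testBit m = true) := by
  have hs := mono h
  induction m using Nat.strong_induction_on with
  | _ m ih =>
    intro hm
    by_cases h3 : m < 3
    · have : m = 0 ∨ m = 1 ∨ m = 2 := by omega
      rcases this with rfl | rfl | rfl
      · rw [check3.1]
        simp only [Bool.false_eq_true, iff_false]
        rintro ⟨i, hi⟩
        have := hs.monotone (Nat.zero_le i)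
        rw [h.1] at this
        omega
      · rw [check3.2.1]
        simp only [iff_true]
        exact ⟨0, h.1⟩
      · rw [check3.2.2]
        simp only [iff_true]
        exact ⟨1, h.2.1⟩
    · have hc := List.all_eq_true.mp check m (List.mem_range.mpr (by omega))
      simp only [h3, decide_false, Bool.false_or, beq_iff_eq] at hc
      rw [char h m (by omega), hc, beq_iff_eq, one_bit]
      refine existsUnique_congr fun a => ?_
      rw [xx_bit m a hm]
      constructor
      · rintro ⟨b1, b2, b3⟩
        have a0 : a ≠ 0 := by
          rintro rfl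
          obtain ⟨i, hi⟩ := b1
          have := hs.monotone (Nat.zero_le i)
          rw [h.1] at this
          omega
        exact ⟨by omega, (ih a (by omega) (by omega)).mp b1,
          (ih (m - a) (by omega) (by omega)).mp b2⟩
      · rintro ⟨b1, b2, b3⟩
        have a0 : a ≠ 0 := by
          rintro rfl
          rw [check3.1] at b2
          exact absurd b2 (by simp)
        exact ⟨(ih a (by omega) (by omega)).mpr b2,
          (ih (m - a) (by omega) (by omega)).mpr b3, by omega⟩

theorem result :
    (∃ u : ℕ → ℕ, IsUlam u) ∧ ∀ u : ℕ → ℕ, IsUlam u →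
      lucas 17 = 3571 ∧ (∀ i, u i ≠ lucas 17) ∧ ∀ i j, i < j → u i + u j ≠ lucas 17 := by
  refine ⟨⟨ul, ul_isUlam⟩, fun u h => ?_⟩
  have hl : lucas 17 = 3571 := by decide +kernel
  have hs := mono h
  have hpos : ∀ i, 1 ≤ u i := fun i => by
    have := hs.monotone (Nat.zero_le i)
    rw [h.1] at this
    exact this
  rw [hl]
  have hno : ∀ i j, i < j → u i + u j ≠ 3571 := by
    intro i j hij he
    have := hs hij
    have b1 := (main h (u i) (by omega)).mp ⟨i, rfl⟩
    have b2 := (main h (u j) (by omega)).mp ⟨j, rfl⟩
    have h0 := (xx_bit 3571 (u i) le_rfl).mpr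
      ⟨by omega, b1, by rw [show 3571 - u i = u j by omega]; exact b2⟩
    rw [check2] at h0
    simp at h0
  refine ⟨rfl, fun i hi => ?_, hno⟩
  obtain ⟨a, ⟨⟨i', rfl⟩, ⟨j', hj⟩, b3⟩, -⟩ := (char h 3571 (by norm_num)).mp ⟨i, hi⟩
  exact hno i' j' (hs.lt_iff_lt.mp (by omega)) (by omega)

end Pool.Agent.Results.MP_7bafff_nt.Lucas17
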